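import Pool.Agent.Lib.MP_2194ec_nt.GAL.Defs
import Pool.Agent.Lib.MP_2194ec_nt.PlA

set_option autoImplicit false

/-!
# Row D: from a periodic curve of the projective plane to a periodic bivariate polynomial
-/

namespace Pool.DynLehmer.GAL.H78
open MvPolynomial Pool.DynLehmer
open scoped Classical

/-! ### The prime form of a curve -/

section curve

variable {K : Type} [Field K]

/-- the dimension of the image of a space of forms modulo an ideal -/
theorem finrank_mod (Q : Ideal (MvPolynomial (Fin 3) K)) (T : ℕ) :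
    Module.finrank K ((homogeneousSubmodule (Fin 3) K T).map
      (Q.restrictScalars K).mkQ) +
    Module.finrank K ↥(homogeneousSubmodule (Fin 3) K T ⊓ Q.restrictScalars K) =
    Module.finrank K (homogeneousSubmodule (Fin 3) K T) := by
  set V := homogeneousSubmodule (Fin 3) K T
  have h := LinearMap.finrank_range_add_finrank_ker ((Q.restrictScalars K).mkQ.domRestrict V)
  rw [LinearMap.range_domRestrict] at h
  have h2 : Module.finrank K (LinearMap.ker ((Q.restrictScalars K).mkQ.domRestrict V)) =
      Module.finrank K ↥(V ⊓ Q.restrictScalars K) := by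
    rw [LinearMap.ker_domRestrict, Submodule.ker_mkQ]
    have e : ↥((Q.restrictScalars K).comap V.subtype) ≃ₗ[K] ↥(V ⊓ Q.restrictScalars K) := by
      refine LinearEquiv.trans (Submodule.equivMapOfInjective V.subtype
        (Submodule.subtype_injective V) _) (LinearEquiv.ofEq _ _ ?_)
      rw [Submodule.map_comap_subtype]
    exact e.finrank_eq
  rw [h2] at h
  exact h

theorem exists_small_form (Q : Ideal (MvPolynomial (Fin 3) K)) (c : ℕ)
    (hup : ∀ T, Module.finrank K (homogeneousSubmodule (Fin 3) K T) ≤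
      Module.finrank K ↥(homogeneousSubmodule (Fin 3) K T ⊓ Q.restrictScalars K) +
        c * (T + 1)) :
    ∃ g ∈ Q, g ≠ 0 ∧ g.IsHomogeneous (2 * c) := by
  have h := hup (2 * c)
  rw [finrank_hom] at h
  have h1 := two_choose (2 * c)
  have h2 : 0 < Module.finrank K
      ↥(homogeneousSubmodule (Fin 3) K (2 * c) ⊓ Q.restrictScalars K) := by
    by_contra h0
    have h3 : Module.finrank K
      ↥(homogeneousSubmodule (Fin 3) K (2 * c) ⊓ Q.restrictScalars K) = 0 := by omega
    rw [h3, zero_add] at h
    nlinarith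
  obtain ⟨x, hx⟩ := Module.finrank_pos_iff_exists_ne_zero.mp h2
  refine ⟨x, x.2.2, fun h0 => hx (Subtype.ext h0), x.2.1⟩

/-- the prime form of a curve -/
theorem exists_prime_form (Q : Ideal (MvPolynomial (Fin 3) K)) (hQ : Q.IsPrime) (c : ℕ)
    (hcomp : ∀ G ∈ Q, ∀ d, homogeneousComponent d G ∈ Q)
    (hlo : ∀ T, Module.finrank K
      ↥(homogeneousSubmodule (Fin 3) K T ⊓ Q.restrictScalars K) + (T + 1) ≤
      Module.finrank K (homogeneousSubmodule (Fin 3) K T))
    (hup : ∀ T, Module.finrank K (homogeneousSubmodule (Fin 3) K T) ≤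
      Module.finrank K ↥(homogeneousSubmodule (Fin 3) K T ⊓ Q.restrictScalars K) +
        c * (T + 1)) :
    ∃ (g : MvPolynomial (Fin 3) K) (a : ℕ), Prime g ∧ g ∈ Q ∧ g.IsHomogeneous a ∧ a ≤ 2 * c ∧
      ∀ h ∈ Q, g ∣ h := by
  obtain ⟨g0, hg0Q, hg00, hg0⟩ := exists_small_form Q c hup
  obtain ⟨s, hs, hs'⟩ := UniqueFactorizationMonoid.exists_prime_factors g0 hg00
  have h1 : s.prod ∈ Q := by
    obtain ⟨u, hu⟩ := hs'.symm
    rw [← hu]
    exact Ideal.mul_mem_right _ _ hg0Q
  obtain ⟨g, hgs, hgQ⟩ := (hQ.multiset_prod_mem_iff_exists_mem s).1 h1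
  have hgp : Prime g := hs g hgs
  have hdvd : g ∣ g0 := (Multiset.dvd_prod hgs).trans hs'.dvd
  obtain ⟨a, ha, hga⟩ := hom_of_dvd hg0 hg00 hdvd
  refine ⟨g, a, hgp, hgQ, hga, ha, ?_⟩
  have key : ∀ h ∈ Q, ∀ b, h.IsHomogeneous b → g ∣ h := by
    intro h hh b hb
    by_contra hnd
    have hh0 : h ≠ 0 := fun h0 => hnd (h0 ▸ dvd_zero g)
    have hrel : ∀ u v : MvPolynomial (Fin 3) K, g * u = h * v → h ∣ u := by
      intro u v huv
      have h2 : g ∣ h * v := ⟨u, huv.symm⟩
      rcases hgp.dvd_or_dvd h2 with h3 | ⟨w, rfl⟩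
      · exact absurd h3 hnd
      · refine ⟨w, mul_left_cancel₀ hgp.ne_zero ?_⟩
        rw [huv]
        ring
    have hb1 := bezout_dim (t := a + b + a * b) hga hb hgp.ne_zero hh0 hrel (by omega)
      (Q.restrictScalars K).mkQ
      (fun u => (Submodule.Quotient.mk_eq_zero _).2 (Ideal.mul_mem_right _ _ hgQ))
      (fun u => (Submodule.Quotient.mk_eq_zero _).2 (Ideal.mul_mem_right _ _ hh))
    have hb2 := finrank_mod Q (a + b + a * b)
    have hb3 := hlo (a + b + a * b)
    omega
  intro h hh
  rw [← sum_homogeneousComponent h]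
  exact Finset.dvd_sum fun i _ => key _ (hcomp h hh i) i (homogeneousComponent_isHomogeneous i h)

end curve

/-! ### Dehomogenisation -/

section dehom

variable {K : Type} [Field K]

/-- dehomogenisation: `g(X, Y, 1)` -/
noncomputable def dh : MvPolynomial (Fin 3) K →ₐ[K] Polynomial (Polynomial K) :=
  aeval ![Polynomial.C Polynomial.X, Polynomial.X, 1]

theorem dh_X0 : dh (X 0 : MvPolynomial (Fin 3) K) = Polynomial.C Polynomial.X := by
  simp [dh]

theorem dh_X1 : dh (X 1 : MvPolynomial (Fin 3) K) = Polynomial.X := by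
  simp [dh]

theorem dh_X2 : dh (X 2 : MvPolynomial (Fin 3) K) = 1 := by
  simp [dh]

theorem dh_C (c : K) : dh (C c : MvPolynomial (Fin 3) K) = Polynomial.C (Polynomial.C c) := by
  rw [dh, aeval_C]
  rfl

/-- evaluation of bivariate polynomials as a ring homomorphism -/
noncomputable def evh {N : Type} [CommRing N] [Algebra K N] (x y : N) :
    Polynomial (Polynomial K) →+* N :=
  Polynomial.eval₂RingHom (Polynomial.aeval x : Polynomial K →ₐ[K] N).toRingHom y

theorem evh_apply {N : Type} [CommRing N] [Algebra K N] (x y : N) (G : Polynomial (Polynomial K)) :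
    evh x y G = ev2 x y G := rfl

theorem evh_CX {N : Type} [CommRing N] [Algebra K N] (x y : N) (g : Polynomial K) :
    evh x y (Polynomial.C g) = Polynomial.aeval x g := by
  simp [evh]

theorem evh_X {N : Type} [CommRing N] [Algebra K N] (x y : N) :
    evh (K := K) x y Polynomial.X = y := by
  simp [evh]

theorem ev2_dh {N : Type} [CommRing N] [Algebra K N] (x y : N) (u : MvPolynomial (Fin 3) K) :
    ev2 x y (dh u) = aeval (pt x y) u := by
  rw [← evh_apply]
  have h : (evh x y).comp (dh (K := K)).toRingHom =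
      (aeval (pt x y) : MvPolynomial (Fin 3) K →ₐ[K] N).toRingHom := by
    refine MvPolynomial.ringHom_ext (fun c => ?_) (fun i => ?_)
    · change evh x y (dh (C c)) = aeval (pt x y) (C c)
      rw [dh_C, evh_CX, Polynomial.aeval_C, aeval_C]
    · change evh x y (dh (X i)) = aeval (pt x y) (X i)
      rw [aeval_X]
      fin_cases i
      · change evh x y (dh (X 0)) = _
        rw [dh_X0, evh_CX, Polynomial.aeval_X]
        rfl
      · change evh x y (dh (X 1)) = _
        rw [dh_X1, evh_X]
        rfl
      · change evh x y (dh (X 2)) = _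
        rw [dh_X2, map_one]
        rfl
  exact congrArg (fun φ : MvPolynomial (Fin 3) K →+* N => φ u) h

/-- the fraction field of the ring of polynomials in three variables -/
abbrev Fr (K : Type) [Field K] : Type := FractionRing (MvPolynomial (Fin 3) K)

/-- the variables in the fraction field -/
noncomputable def zz (K : Type) [Field K] (i : Fin 3) : Fr K :=
  algebraMap (MvPolynomial (Fin 3) K) (Fr K) (X i)

theorem zz_ne (i : Fin 3) : zz K i ≠ 0 := by
  unfold zz
  rw [Ne, FaithfulSMul.algebraMap_eq_zero_iff]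
  exact X_ne_zero i

theorem aeval_zz (u : MvPolynomial (Fin 3) K) :
    aeval (zz K) u = algebraMap (MvPolynomial (Fin 3) K) (Fr K) u := by
  have h : (aeval (zz K) : MvPolynomial (Fin 3) K →ₐ[K] Fr K) =
      IsScalarTower.toAlgHom K (MvPolynomial (Fin 3) K) (Fr K) := by
    refine MvPolynomial.algHom_ext fun i => ?_
    rw [aeval_X]
    rfl
  exact congrArg (fun φ : MvPolynomial (Fin 3) K →ₐ[K] Fr K => φ u) h

/-- a form is recovered from its dehomogenisation -/
theorem hom_eq {u : MvPolynomial (Fin 3) K} {d : ℕ} (hu : u.IsHomogeneous d) :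
    algebraMap (MvPolynomial (Fin 3) K) (Fr K) u =
      zz K 2 ^ d * ev2 (zz K 0 / zz K 2) (zz K 1 / zz K 2) (dh u) := by
  rw [ev2_dh, ← aeval_zz]
  have h := eval_smul_hom (hu.map (algebraMap K (Fr K))) (zz K 2)
    (pt (zz K 0 / zz K 2) (zz K 1 / zz K 2))
  have h1 : zz K 2 • pt (zz K 0 / zz K 2) (zz K 1 / zz K 2) = zz K := by
    funext i
    have h2 := zz_ne (K := K) 2
    fin_cases i
    · change zz K 2 * (zz K 0 / zz K 2) = zz K 0
      field_simp
    · change zz K 2 * (zz K 1 / zz K 2) = zz K 1
      field_simp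
    · change zz K 2 * 1 = zz K 2
      ring
  rw [h1, eval_map, eval_map] at h
  exact h

theorem dh_inj {u w : MvPolynomial (Fin 3) K} {d : ℕ} (hu : u.IsHomogeneous d)
    (hw : w.IsHomogeneous d) (h : dh u = dh w) : u = w := by
  have h1 := hom_eq hu
  rw [h, ← hom_eq hw] at h1
  exact IsFractionRing.injective (MvPolynomial (Fin 3) K) (Fr K) h1

theorem dh_pow_X2 (u : MvPolynomial (Fin 3) K) (n : ℕ) : dh (X 2 ^ n * u) = dh u := by
  rw [map_mul, map_pow, dh_X2, one_pow, one_mul]

/-- every bivariate polynomial is the dehomogenisation of a form -/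
theorem exists_form (A : Polynomial (Polynomial K)) :
    ∃ (u : MvPolynomial (Fin 3) K) (a : ℕ), u.IsHomogeneous a ∧ dh u = A := by
  have hsurj : ∃ P : MvPolynomial (Fin 3) K, dh P = A := by
    induction A using Polynomial.induction_on' with
    | add p q hp hq =>
      obtain ⟨P, rfl⟩ := hp
      obtain ⟨Q, rfl⟩ := hq
      exact ⟨P + Q, map_add _ _ _⟩
    | monomial n b =>
      have hb : ∃ P : MvPolynomial (Fin 3) K, dh P = Polynomial.C b := by
        induction b using Polynomial.induction_on' with
        | add p q hp hq =>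
          obtain ⟨P, hP⟩ := hp
          obtain ⟨Q, hQ⟩ := hq
          exact ⟨P + Q, by rw [map_add, hP, hQ, map_add]⟩
        | monomial m c =>
          refine ⟨C c * X 0 ^ m, ?_⟩
          rw [map_mul, map_pow, dh_C, dh_X0, ← map_pow, ← map_mul,
            Polynomial.C_mul_X_pow_eq_monomial]
      obtain ⟨P, hP⟩ := hb
      refine ⟨P * X 1 ^ n, ?_⟩
      rw [map_mul, map_pow, hP, dh_X1, Polynomial.C_mul_X_pow_eq_monomial]
  obtain ⟨P, hP⟩ := hsurj
  refine ⟨∑ i ∈ Finset.range (P.totalDegree + 1), X 2 ^ (P.totalDegree - i) *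
    homogeneousComponent i P, P.totalDegree, ?_, ?_⟩
  · refine IsHomogeneous.sum _ _ _ fun i hi => ?_
    have h1 := ((isHomogeneous_X K (2 : Fin 3)).pow (P.totalDegree - i)).mul
      (homogeneousComponent_isHomogeneous i P)
    rw [Finset.mem_range] at hi
    rwa [show 1 * (P.totalDegree - i) + i = P.totalDegree by omega] at h1
  · rw [map_sum]
    simp_rw [dh_pow_X2]
    rw [← map_sum, sum_homogeneousComponent, hP]

/-- the dehomogenisation of a prime form different from `X 2` is prime -/
theorem dh_prime {g : MvPolynomial (Fin 3) K} {d : ℕ} (hg : Prime g) (hgd : g.IsHomogeneous d)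
    (h2 : ¬ g ∣ X 2) : Prime (dh g) := by
  have key : ∀ A : Polynomial (Polynomial K), dh g ∣ A → ∀ (u : MvPolynomial (Fin 3) K) (a : ℕ),
      u.IsHomogeneous a → dh u = A → g ∣ u := by
    rintro A ⟨B, hB⟩ u a hu huA
    obtain ⟨w, b, hw, hwB⟩ := exists_form B
    have h3 : X 2 ^ (d + b) * u = X 2 ^ a * (g * w) := by
      refine dh_inj (d := d + b + a) ?_ ?_ ?_
      · have := ((isHomogeneous_X K (2 : Fin 3)).pow (d + b)).mul hu
        rwa [one_mul] at this
      · have := ((isHomogeneous_X K (2 : Fin 3)).pow a).mul (hgd.mul hw)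
        rwa [show 1 * a + (d + b) = d + b + a by omega] at this
      · rw [dh_pow_X2, dh_pow_X2, map_mul, hwB, huA, hB]
    have h4 : g ∣ X 2 ^ (d + b) * u := by
      rw [h3]
      exact Dvd.intro_left (X 2 ^ a * w) (by ring)
    rcases hg.dvd_or_dvd h4 with h5 | h5
    · exact absurd (hg.dvd_of_dvd_pow h5) h2
    · exact h5
  refine ⟨?_, ?_, ?_⟩
  · intro h0
    have : g = 0 := by
      refine dh_inj hgd (isHomogeneous_zero _ _ _) ?_
      rw [h0, map_zero]
    exact hg.ne_zero this
  · intro hu
    have h1 : dh g ∣ 1 := hu.dvd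
    have h3 := key 1 h1 1 0 (isHomogeneous_one _ _) (map_one _)
    exact hg.not_isUnit (isUnit_of_dvd_one h3)
  · intro A B hAB
    obtain ⟨u, a, hu, huA⟩ := exists_form A
    obtain ⟨w, b, hw, hwB⟩ := exists_form B
    have h3 := key (A * B) hAB (u * w) (a + b) (hu.mul hw) (by rw [map_mul, huA, hwB])
    rcases hg.dvd_or_dvd h3 with h4 | h4
    · left
      rw [← huA]
      exact map_dvd dh h4
    · right
      rw [← hwB]
      exact map_dvd dh h4

theorem dh_monomial (m : Fin 3 →₀ ℕ) (c : K) : dh (monomial m c) =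
    Polynomial.C (Polynomial.C c * Polynomial.X ^ m 0) * Polynomial.X ^ m 1 := by
  rw [dh, aeval_monomial, Finsupp.prod_fintype _ _ (fun i => pow_zero _), Fin.prod_univ_three]
  simp only [Matrix.cons_val_zero, Matrix.cons_val_one, Matrix.cons_val, one_pow, mul_one]
  rw [← map_pow, map_mul]
  have : algebraMap K (Polynomial (Polynomial K)) c = Polynomial.C (Polynomial.C c) := rfl
  rw [this]
  ring

theorem dh_eq_sum (u : MvPolynomial (Fin 3) K) : dh u = ∑ m ∈ u.support,
    Polynomial.C (Polynomial.C (coeff m u) * Polynomial.X ^ m 0) * Polynomial.X ^ m 1 := by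
  conv_lhs => rw [u.as_sum, map_sum]
  exact Finset.sum_congr rfl fun m _ => dh_monomial m _

theorem le_of_hom {u : MvPolynomial (Fin 3) K} {d : ℕ} (hu : u.IsHomogeneous d)
    {m : Fin 3 →₀ ℕ} (hm : m ∈ u.support) (i : Fin 3) : m i ≤ d := by
  have h1 := hu (mem_support_iff.1 hm)
  have h2 : Finsupp.degree m = d := by
    rw [Finsupp.degree_eq_weight_one]
    exact h1
  rw [← h2]
  exact Finsupp.le_degree i m

theorem natDegree_dh {u : MvPolynomial (Fin 3) K} {d : ℕ} (hu : u.IsHomogeneous d) :
    (dh u).natDegree ≤ d := by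
  rw [dh_eq_sum]
  refine Polynomial.natDegree_sum_le_of_forall_le _ _ fun m hm => ?_
  refine (Polynomial.natDegree_C_mul_X_pow_le _ _).trans (le_of_hom hu hm 1)

theorem natDegree_coeff_dh {u : MvPolynomial (Fin 3) K} {d : ℕ} (hu : u.IsHomogeneous d) (j : ℕ) :
    ((dh u).coeff j).natDegree ≤ d := by
  rw [dh_eq_sum, Polynomial.finsetSum_coeff]
  refine Polynomial.natDegree_sum_le_of_forall_le _ _ fun m hm => ?_
  rw [Polynomial.coeff_C_mul_X_pow]
  split_ifs
  · exact (Polynomial.natDegree_C_mul_X_pow_le _ _).trans (le_of_hom hu hm 0)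
  · simp

end dehom

/-! ### The substitutions -/

section subst

variable {K : Type} [Field K]

/-- the substitution as a ring homomorphism -/
noncomputable def bivh (f : Polynomial K) (k : ℕ) :
    Polynomial (Polynomial K) →+* Polynomial (Polynomial K) :=
  Polynomial.eval₂RingHom (Polynomial.C.comp (Polynomial.compRingHom (itp f k)))
    ((itp f k).map Polynomial.C)

theorem bivh_apply (f : Polynomial K) (k : ℕ) (G : Polynomial (Polynomial K)) :
    bivh f k G = biv f k G := by
  unfold bivh biv
  rw [Polynomial.coe_eval₂RingHom, Polynomial.comp, Polynomial.eval₂_map]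

theorem itp_zero (f : Polynomial K) : itp f 0 = Polynomial.X := rfl

theorem itp_succ (f : Polynomial K) (k : ℕ) : itp f (k + 1) = f.comp (itp f k) := by
  unfold itp
  rw [Function.iterate_succ_apply']

theorem itp_one (f : Polynomial K) : itp f 1 = f := by
  rw [itp_succ, itp_zero, Polynomial.comp_X]

theorem bivh_C (f : Polynomial K) (k : ℕ) (g : Polynomial K) :
    bivh f k (Polynomial.C g) = Polynomial.C (g.comp (itp f k)) := by
  simp [bivh]

theorem bivh_X (f : Polynomial K) (k : ℕ) :
    bivh f k Polynomial.X = (itp f k).map Polynomial.C := by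
  simp [bivh]

theorem bivh_map_C (f : Polynomial K) (k : ℕ) (g : Polynomial K) :
    bivh f k (g.map Polynomial.C) = (g.comp (itp f k)).map Polynomial.C := by
  unfold bivh
  rw [Polynomial.coe_eval₂RingHom, Polynomial.eval₂_map, Polynomial.map_comp, Polynomial.comp,
    Polynomial.eval₂_map]
  congr 1
  refine RingHom.ext fun c => ?_
  simp

theorem bivh_succ (f : Polynomial K) (k : ℕ) (G : Polynomial (Polynomial K)) :
    bivh f k (bivh f 1 G) = bivh f (k + 1) G := by
  have h : (bivh f k).comp (bivh f 1) = bivh f (k + 1) := by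
    refine Polynomial.ringHom_ext (fun g => ?_) ?_
    · rw [RingHom.comp_apply, bivh_C, bivh_C, bivh_C, itp_one, Polynomial.comp_assoc, itp_succ]
    · rw [RingHom.comp_apply, bivh_X, bivh_X, itp_one, bivh_map_C, itp_succ]
  exact congrArg (fun φ : Polynomial (Polynomial K) →+* Polynomial (Polynomial K) => φ G) h

theorem fm_iter (f : Polynomial K) {N : Type} [CommRing N] [Algebra K N] (k : ℕ) (x : N) :
    Polynomial.aeval x (itp f k) = (fm f N)^[k] x := by
  induction k with
  | zero => rw [itp_zero, Polynomial.aeval_X]; rfl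
  | succ k ih =>
    rw [itp_succ, Polynomial.aeval_comp, ih, Function.iterate_succ_apply']
    rfl

theorem ev2_bivh (f : Polynomial K) {N : Type} [CommRing N] [Algebra K N] (k : ℕ) (x y : N)
    (G : Polynomial (Polynomial K)) :
    ev2 x y (bivh f k G) = ev2 ((fm f N)^[k] x) ((fm f N)^[k] y) G := by
  rw [← evh_apply, ← evh_apply]
  have h : (evh x y).comp (bivh f k) = evh ((fm f N)^[k] x) ((fm f N)^[k] y) := by
    refine Polynomial.ringHom_ext (fun g => ?_) ?_
    · rw [RingHom.comp_apply, bivh_C, evh_CX, evh_CX, Polynomial.aeval_comp, fm_iter]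
    · rw [RingHom.comp_apply, bivh_X, evh_X]
      have h2 : evh x y ((itp f k).map Polynomial.C) = Polynomial.aeval y (itp f k) := by
        unfold evh
        rw [Polynomial.coe_eval₂RingHom, Polynomial.eval₂_map, Polynomial.aeval_def]
        congr 1
        refine RingHom.ext fun c => ?_
        simp
      rw [h2, fm_iter]
  exact congrArg (fun φ : Polynomial (Polynomial K) →+* N => φ G) h

/-- the field of rational functions in two variables -/
abbrev F2 (K : Type) [Field K] : Type := FractionRing (Polynomial (Polynomial K))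

theorem dh_F (f : Polynomial K) {F : Fin 3 → MvPolynomial (Fin 3) K} (hF : Ext f F) :
    dh (F 0) = Polynomial.C f ∧ dh (F 1) = f.map Polynomial.C ∧ dh (F 2) = 1 := by
  let a : Polynomial (Polynomial K) →+* F2 K := algebraMap _ _
  have hinj : Function.Injective a := IsFractionRing.injective _ _
  have h := hF (F2 K) (a (Polynomial.C Polynomial.X)) (a Polynomial.X)
  have h1 : ∀ u : MvPolynomial (Fin 3) K,
      aeval (pt (a (Polynomial.C Polynomial.X)) (a Polynomial.X)) u = a (dh u) := by
    intro u
    rw [← ev2_dh, ← evh_apply]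
    have h2 : evh (K := K) (a (Polynomial.C Polynomial.X)) (a Polynomial.X) = a := by
      refine Polynomial.ringHom_ext (fun g => ?_) ?_
      · rw [evh_CX]
        have h3 : (Polynomial.aeval (a (Polynomial.C Polynomial.X)) : Polynomial K →ₐ[K] F2 K) =
            ((Algebra.ofId (Polynomial (Polynomial K)) (F2 K)).restrictScalars K).comp
              ((Algebra.ofId (Polynomial K) (Polynomial (Polynomial K))).restrictScalars K) := by
          refine Polynomial.algHom_ext ?_
          rw [Polynomial.aeval_X]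
          rfl
        rw [h3]
        rfl
      · rw [evh_X]
    rw [h2]
  have hfa : ∀ g : Polynomial (Polynomial K), fm f (F2 K) (a g) = a (Polynomial.aeval g f) := by
    intro g
    unfold fm
    exact Polynomial.aeval_algebraMap_apply (F2 K) g f
  have e0 := congrFun h 0
  have e1 := congrFun h 1
  have e2 := congrFun h 2
  unfold gAct at e0 e1 e2
  rw [h1] at e0 e1 e2
  refine ⟨hinj ?_, hinj ?_, hinj ?_⟩
  · rw [e0]
    change fm f (F2 K) (a (Polynomial.C Polynomial.X)) = _
    rw [hfa]
    congr 1
    have : Polynomial.aeval (Polynomial.C (Polynomial.X : Polynomial K)) f =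
        Polynomial.C (Polynomial.aeval (Polynomial.X : Polynomial K) f) :=
      Polynomial.aeval_algebraMap_apply (Polynomial (Polynomial K)) Polynomial.X f
    rw [this, Polynomial.aeval_X_left_apply]
  · rw [e1]
    change fm f (F2 K) (a Polynomial.X) = _
    rw [hfa]
    congr 1
  · rw [e2, map_one]
    rfl

theorem dh_bind (f : Polynomial K) {F : Fin 3 → MvPolynomial (Fin 3) K} (hF : Ext f F)
    (u : MvPolynomial (Fin 3) K) : dh (bind₁ F u) = bivh f 1 (dh u) := by
  obtain ⟨h0, h1, h2⟩ := dh_F f hF
  have h : (dh (K := K)).toRingHom.comp (bind₁ F : MvPolynomial (Fin 3) K →ₐ[K] _).toRingHom =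
      (bivh f 1).comp (dh (K := K)).toRingHom := by
    refine MvPolynomial.ringHom_ext (fun c => ?_) (fun i => ?_)
    · change dh (bind₁ F (C c)) = bivh f 1 (dh (C c))
      rw [← algebraMap_eq, AlgHom.commutes, algebraMap_eq, dh_C, bivh_C, Polynomial.C_comp]
    · change dh (bind₁ F (X i)) = bivh f 1 (dh (X i))
      rw [bind₁_X_right]
      fin_cases i
      · change dh (F 0) = bivh f 1 (dh (X 0))
        rw [h0, dh_X0, bivh_C, Polynomial.X_comp, itp_one]
      · change dh (F 1) = bivh f 1 (dh (X 1))
        rw [h1, dh_X1, bivh_X, itp_one]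
      · change dh (F 2) = bivh f 1 (dh (X 2))
        rw [h2, dh_X2, map_one]
  exact congrArg (fun φ : MvPolynomial (Fin 3) K →+* Polynomial (Polynomial K) => φ u) h

theorem dh_bind_iter (f : Polynomial K) {F : Fin 3 → MvPolynomial (Fin 3) K} (hF : Ext f F)
    (k : ℕ) (u : MvPolynomial (Fin 3) K) : dh ((bind₁ F)^[k] u) = bivh f k (dh u) := by
  induction k generalizing u with
  | zero =>
    have h : bivh f 0 = RingHom.id _ := by
      refine Polynomial.ringHom_ext (fun g => ?_) ?_
      · rw [bivh_C, itp_zero, Polynomial.comp_X]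
        rfl
      · rw [bivh_X, itp_zero, Polynomial.map_X]
        rfl
    rw [h]
    rfl
  | succ k ih =>
    rw [Function.iterate_succ_apply, ih, dh_bind f hF, bivh_succ]

/-- a polynomial vanishing on the orbit of a wandering point is zero -/
theorem eq_zero_of_orbit (f : Polynomial K) {N : Type} [Field N] [Algebra K N] {b : N}
    (hb : Wand f b) {k : ℕ} (hk : 0 < k) {g : Polynomial K}
    (h : ∀ j : ℕ, Polynomial.aeval ((fm f N)^[k * j] b) g = 0) : g = 0 := by
  by_contra hg
  have hg' : g.map (algebraMap K N) ≠ 0 :=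
    (Polynomial.map_ne_zero_iff (algebraMap K N).injective).2 hg
  have hfin : Set.Finite {x : N | (g.map (algebraMap K N)).IsRoot x} :=
    Polynomial.finite_setOfPred_isRoot hg'
  have hinj : Function.Injective fun j : ℕ => (fm f N)^[k * j] b := by
    intro i j hij
    have := hb _ _ hij
    exact Nat.eq_of_mul_eq_mul_left hk this
  refine Set.infinite_of_injective_forall_mem hinj (fun j => ?_) hfin
  change (g.map (algebraMap K N)).IsRoot _
  rw [Polynomial.IsRoot, Polynomial.eval_map_algebraMap]
  exact h j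

theorem dp : DStatement := by
  intro K _ _ f F hF N _ _ b b' c hb hb' hper
  obtain ⟨k, Q, hk, hQ, hcomp, hlo, hup, hval, hst⟩ := hper
  obtain ⟨g, a, hgp, hgQ, hga, hac, hdiv⟩ := exists_prime_form Q hQ c hcomp hlo hup
  have hX2 : (X 2 : MvPolynomial (Fin 3) K) ∉ Q := by
    intro h
    have := hval _ h
    rw [aeval_X] at this
    exact one_ne_zero this
  have hg2 : ¬ g ∣ X 2 := by
    rintro ⟨w, hw⟩
    exact hX2 (hw ▸ Ideal.mul_mem_right _ _ hgQ)
  have hG := dh_prime hgp hga hg2
  have hper : dh g ∣ biv f k (dh g) := by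
    rw [← bivh_apply, ← dh_bind_iter f hF]
    exact map_dvd dh (hdiv _ (hst g hgQ))
  have h0 : ev2 b b' (dh g) = 0 := by
    rw [ev2_dh]
    exact hval g hgQ
  have horb : ∀ j : ℕ, ev2 ((fm f N)^[k * j] b) ((fm f N)^[k * j] b') (dh g) = 0 := by
    intro j
    induction j with
    | zero => simpa using h0
    | succ j ih =>
      have e : k * (j + 1) = k + k * j := by ring
      rw [e, Function.iterate_add_apply, Function.iterate_add_apply, ← ev2_bivh, bivh_apply]
      obtain ⟨w, hw⟩ := hper
      rw [hw, ← evh_apply, map_mul, evh_apply, ih, zero_mul]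
  refine ⟨dh g, ⟨hG.irreducible, (natDegree_dh hga).trans hac,
    fun i => (natDegree_coeff_dh hga i).trans hac, ?_, ?_, k, hk, hper⟩, h0⟩
  · rw [Nat.pos_iff_ne_zero]
    intro hd
    have h1 := Polynomial.eq_C_of_natDegree_eq_zero hd
    have h2 : (dh g).coeff 0 = 0 := by
      refine eq_zero_of_orbit f hb hk fun j => ?_
      have := horb j
      rw [h1, ← evh_apply, evh_CX] at this
      exact this
    rw [h2, map_zero] at h1
    exact hG.ne_zero h1
  · by_contra hd
    push Not at hd
    have h1 : dh g = ((dh g).map (Polynomial.evalRingHom 0)).map Polynomial.C := by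
      ext1 i
      rw [Polynomial.coeff_map, Polynomial.coeff_map]
      have h2 := Polynomial.eq_C_of_natDegree_le_zero (hd i)
      conv_lhs => rw [h2]
      rw [Polynomial.coe_evalRingHom, ← Polynomial.coeff_zero_eq_eval_zero]
    have h2 : (dh g).map (Polynomial.evalRingHom 0) = 0 := by
      refine eq_zero_of_orbit f hb' hk fun j => ?_
      have := horb j
      rw [h1, ← evh_apply] at this
      unfold evh at this
      rw [Polynomial.coe_eval₂RingHom, Polynomial.eval₂_map] at this
      rw [Polynomial.aeval_def]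
      rw [← this]
      congr 1
      refine RingHom.ext fun c => ?_
      simp
    rw [h2, Polynomial.map_zero] at h1
    exact hG.ne_zero h1

theorem df : DfStatement := by
  intro K _ G hG hd N _ _ b h0
  have hcoeff : ∀ i, Polynomial.aeval b (G.coeff i) = 0 := by
    intro i
    have := congrArg (fun P : Polynomial N => P.coeff i) h0
    simpa using this
  have hne : ∃ i, G.coeff i ≠ 0 := by
    by_contra h
    push Not at h
    exact hG.ne_zero (Polynomial.ext fun i => by rw [h i, Polynomial.coeff_zero])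
  obtain ⟨i0, hi0⟩ := hne
  have halg : IsAlgebraic K b := ⟨G.coeff i0, hi0, hcoeff i0⟩
  have hint : IsIntegral K b := halg.isIntegral
  have hdvd : Polynomial.C (minpoly K b) ∣ G := by
    rw [Polynomial.C_dvd_iff_dvd_coeff]
    exact fun i => minpoly.dvd K b (hcoeff i)
  obtain ⟨H, hH⟩ := hdvd
  rcases hG.isUnit_or_isUnit hH with h | h
  · exact minpoly.not_isUnit K b (Polynomial.isUnit_C.1 h)
  · have h1 : H.natDegree = 0 := Polynomial.natDegree_eq_zero_of_isUnit h
    rw [hH] at hd
    have h2 := Polynomial.natDegree_C_mul_le (minpoly K b) H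
    omega

end subst

end Pool.DynLehmer.GAL.H78
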